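import Mathlib

/-!
# A certified positivity test for exponential polynomials

`ev1 f t = ∑ c t ^ a exp (x t)` and `ev2 p t r = ∑ c t ^ a r ^ b exp (x t + y r)` with natural numbers
`a, b, x, y` and integers `c`. `check1 n f = true` proves that `ev1 f t > 0` for `t > 0`, and
`check2 n p = true` with `p ≠ []` proves that `ev2 p t r > 0` for `t > 0`, `r ≥ 0`. The test divides by
the exponential with the least exponent, looks at the value at `0` and goes on with the derivative.
-/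

set_option autoImplicit false

namespace Pool.Agent.Q233.EP

/-- terms `(a, x, c)` for `c t ^ a exp (x t)` -/
abbrev L1 := List (ℕ × ℕ × ℤ)

/-- terms `(a, b, x, y, c)` for `c t ^ a r ^ b exp (x t + y r)` -/
abbrev L2 := List (ℕ × ℕ × ℕ × ℕ × ℤ)

noncomputable def ev1 (f : L1) (t : ℝ) : ℝ :=
  (f.map fun p => (p.2.2 : ℝ) * t ^ p.1 * Real.exp (p.2.1 * t)).sum

noncomputable def ev2 (f : L2) (t r : ℝ) : ℝ :=
  (f.map fun p => (p.2.2.2.2 : ℝ) * t ^ p.1 * r ^ p.2.1 * Real.exp (p.2.2.1 * t + p.2.2.2.1 * r)).sum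

@[simp] lemma ev1_nil (t : ℝ) : ev1 [] t = 0 := by simp [ev1]

lemma ev1_cons (p : ℕ × ℕ × ℤ) (f : L1) (t : ℝ) :
    ev1 (p :: f) t = (p.2.2 : ℝ) * t ^ p.1 * Real.exp (p.2.1 * t) + ev1 f t := by simp [ev1]

@[simp] lemma ev2_nil (t r : ℝ) : ev2 [] t r = 0 := by simp [ev2]

lemma ev2_cons (p : ℕ × ℕ × ℕ × ℕ × ℤ) (f : L2) (t r : ℝ) :
    ev2 (p :: f) t r =
      (p.2.2.2.2 : ℝ) * t ^ p.1 * r ^ p.2.1 * Real.exp (p.2.2.1 * t + p.2.2.2.1 * r) +
        ev2 f t r := by simp [ev2]

/-! ### one variable -/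

def ins1 (a x : ℕ) (c : ℤ) : L1 → L1
  | [] => [(a, x, c)]
  | (a', x', c') :: l => if a == a' && x == x' then (a, x, c + c') :: l
      else (a', x', c') :: ins1 a x c l

def norm1 (f : L1) : L1 := (f.foldr (fun p l => ins1 p.1 p.2.1 p.2.2 l) []).filter
  fun p => !(p.2.2 == 0)

def d1 (f : L1) : L1 := f.flatMap fun p => [(p.1 - 1, p.2.1, (p.1 : ℤ) * p.2.2),
  (p.1, p.2.1, (p.2.1 : ℤ) * p.2.2)]

def sh1 (m : ℕ) (f : L1) : L1 := f.map fun p => (p.1, p.2.1 - m, p.2.2)

def val0 (f : L1) : ℤ := (f.map fun p => if p.1 == 0 then p.2.2 else 0).sum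

def min1 (f : L1) : ℕ := match f with
  | [] => 0
  | p :: l => l.foldl (fun m q => min m q.2.1) p.2.1

def check1 : ℕ → L1 → Bool
  | 0, _ => false
  | n + 1, f => (f.all (fun p => decide (0 ≤ p.2.2)) && f.any (fun p => decide (0 < p.2.2))) ||
      (f.all (fun p => Nat.ble (min1 f) p.2.1) && (decide (0 ≤ val0 (sh1 (min1 f) f)) &&
        check1 n (norm1 (d1 (sh1 (min1 f) f)))))

lemma ev1_ins1 (a x : ℕ) (c : ℤ) (f : L1) (t : ℝ) :
    ev1 (ins1 a x c f) t = (c : ℝ) * t ^ a * Real.exp (x * t) + ev1 f t := by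
  induction f with
  | nil => simp [ins1, ev1_cons]
  | cons p l ih =>
    obtain ⟨a', x', c'⟩ := p
    unfold ins1
    split_ifs with h
    · simp only [Bool.and_eq_true, beq_iff_eq] at h
      obtain ⟨rfl, rfl⟩ := h
      simp only [ev1_cons]
      push_cast
      ring
    · simp only [ev1_cons, ih]
      ring

lemma ev1_filter (f : L1) (t : ℝ) : ev1 (f.filter fun p => !(p.2.2 == 0)) t = ev1 f t := by
  induction f with
  | nil => simp
  | cons p l ih =>
    by_cases h : p.2.2 = 0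
    · rw [List.filter_cons_of_neg (by simp [h]), ih, ev1_cons, h]
      simp
    · rw [List.filter_cons_of_pos (by simp [h]), ev1_cons, ev1_cons, ih]

lemma ev1_norm1 (f : L1) (t : ℝ) : ev1 (norm1 f) t = ev1 f t := by
  unfold norm1
  rw [ev1_filter]
  induction f with
  | nil => simp
  | cons p l ih =>
    rw [List.foldr_cons, ev1_ins1, ih, ev1_cons]

lemma hasDerivAt_ev1 (f : L1) (t : ℝ) : HasDerivAt (ev1 f) (ev1 (d1 f) t) t := by
  induction f with
  | nil =>
    have : ev1 [] = fun _ => (0 : ℝ) := by ext; simp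
    rw [this]
    simpa [d1] using hasDerivAt_const t (0 : ℝ)
  | cons p l ih =>
    obtain ⟨a, x, c⟩ := p
    have e : ev1 ((a, x, c) :: l) = fun t => (c : ℝ) * t ^ a * Real.exp (x * t) + ev1 l t := by
      ext t; rw [ev1_cons]
    rw [e]
    have h1 : HasDerivAt (fun t : ℝ => (c : ℝ) * t ^ a * Real.exp (x * t))
        ((c : ℝ) * (a * t ^ (a - 1)) * Real.exp (x * t) +
          (c : ℝ) * t ^ a * (Real.exp (x * t) * (x * 1))) t :=
      ((hasDerivAt_pow a t).const_mul (c : ℝ)).mul (((hasDerivAt_id t).const_mul (x : ℝ)).exp)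
    refine (h1.add ih).congr_deriv ?_
    simp only [d1, List.flatMap_cons, List.cons_append, List.nil_append, ev1_cons]
    push_cast
    ring

lemma ev1_sh1 (m : ℕ) (f : L1) (t : ℝ) (h : ∀ p ∈ f, m ≤ p.2.1) :
    ev1 f t = Real.exp (m * t) * ev1 (sh1 m f) t := by
  induction f with
  | nil => simp [sh1]
  | cons p l ih =>
    have h1 := h p (by simp)
    have e : sh1 m (p :: l) = (p.1, p.2.1 - m, p.2.2) :: sh1 m l := rfl
    rw [e, ev1_cons, ev1_cons, ih fun q hq => h q (by simp [hq]), mul_add]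
    congr 1
    have h2 : (p.2.1 : ℝ) * t = m * t + ((p.2.1 - m : ℕ) : ℝ) * t := by
      rw [Nat.cast_sub h1]; ring
    rw [h2, Real.exp_add]
    ring

lemma ev1_zero (f : L1) : ev1 f 0 = val0 f := by
  induction f with
  | nil => simp [val0]
  | cons p l ih =>
    have e : val0 (p :: l) = (if p.1 == 0 then p.2.2 else 0) + val0 l := by
      simp [val0]
    rw [e, ev1_cons, ih]
    by_cases h : p.1 = 0
    · simp [h]
    · simp [h]

theorem check1_pos (n : ℕ) (f : L1) (h : check1 n f = true) : ∀ t : ℝ, 0 < t → 0 < ev1 f t := by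
  induction n generalizing f with
  | zero => simp [check1] at h
  | succ n ih =>
    intro t ht
    unfold check1 at h
    rw [Bool.or_eq_true, Bool.and_eq_true, Bool.and_eq_true, Bool.and_eq_true] at h
    rcases h with ⟨h1, h2⟩ | ⟨h1, h2, h3⟩
    · rw [List.all_eq_true] at h1
      rw [List.any_eq_true] at h2
      obtain ⟨p, hp, hp1⟩ := h2
      have hp2 : 0 < p.2.2 := by simpa using hp1
      unfold ev1
      have key : ∀ q ∈ f.map (fun p => (p.2.2 : ℝ) * t ^ p.1 * Real.exp (p.2.1 * t)), 0 ≤ q := by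
        intro q hq
        rw [List.mem_map] at hq
        obtain ⟨p', hp', rfl⟩ := hq
        have : 0 ≤ p'.2.2 := by simpa using h1 p' hp'
        have h5 : (0 : ℝ) ≤ (p'.2.2 : ℝ) := by exact_mod_cast this
        positivity
      refine lt_of_lt_of_le ?_ (List.single_le_sum key _ (List.mem_map.2 ⟨p, hp, rfl⟩))
      have h5 : (0 : ℝ) < (p.2.2 : ℝ) := by exact_mod_cast hp2
      positivity
    · rw [List.all_eq_true] at h1
      have h1' : ∀ p ∈ f, min1 f ≤ p.2.1 := fun p hp => Nat.le_of_ble_eq_true (h1 p hp)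
      rw [ev1_sh1 (min1 f) f t h1']
      refine mul_pos (Real.exp_pos _) ?_
      have hd := ih _ h3
      obtain ⟨g, hg⟩ : ∃ g, g = sh1 (min1 f) f := ⟨_, rfl⟩
      rw [← hg] at h2 hd ⊢
      have hmono : StrictMonoOn (ev1 g) (Set.Ici 0) := by
        refine strictMonoOn_of_deriv_pos (convex_Ici 0)
          (fun x _ => (hasDerivAt_ev1 g x).continuousAt.continuousWithinAt) fun x hx => ?_
        rw [interior_Ici, Set.mem_Ioi] at hx
        rw [(hasDerivAt_ev1 g x).deriv, ← ev1_norm1]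
        exact hd x hx
      have h4 := hmono (Set.mem_Ici.2 le_rfl) (Set.mem_Ici.2 ht.le) ht
      rw [ev1_zero] at h4
      have h5 : 0 ≤ val0 g := by simpa using h2
      have h6 : (0 : ℝ) ≤ (val0 g : ℝ) := by exact_mod_cast h5
      linarith

/-! ### two variables -/

def ins2 (a b x y : ℕ) (c : ℤ) : L2 → L2
  | [] => [(a, b, x, y, c)]
  | (a', b', x', y', c') :: l => if (a == a' && b == b') && (x == x' && y == y') then
      (a, b, x, y, c + c') :: l else (a', b', x', y', c') :: ins2 a b x y c l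

def norm2 (f : L2) : L2 := (f.foldr
  (fun p l => ins2 p.1 p.2.1 p.2.2.1 p.2.2.2.1 p.2.2.2.2 l) []).filter fun p => !(p.2.2.2.2 == 0)

def d2 (f : L2) : L2 := f.flatMap fun p => [(p.1, p.2.1 - 1, p.2.2.1, p.2.2.2.1,
  (p.2.1 : ℤ) * p.2.2.2.2), (p.1, p.2.1, p.2.2.1, p.2.2.2.1, (p.2.2.2.1 : ℤ) * p.2.2.2.2)]

def sh2 (m : ℕ) (f : L2) : L2 := f.map fun p => (p.1, p.2.1, p.2.2.1, p.2.2.2.1 - m, p.2.2.2.2)

def r0 (f : L2) : L1 := f.flatMap fun p => if p.2.1 == 0 then [(p.1, p.2.2.1, p.2.2.2.2)] else []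

def min2 (f : L2) : ℕ := match f with
  | [] => 0
  | p :: l => l.foldl (fun m q => min m q.2.2.2.1) p.2.2.2.1

def check2 : ℕ → L2 → Bool
  | 0, p => p.isEmpty
  | n + 1, p => p.isEmpty || (p.all (fun q => Nat.ble (min2 p) q.2.2.2.1) &&
      (check1 100 (norm1 (r0 (sh2 (min2 p) p))) && check2 n (norm2 (d2 (sh2 (min2 p) p)))))

lemma ev2_ins2 (a b x y : ℕ) (c : ℤ) (f : L2) (t r : ℝ) :
    ev2 (ins2 a b x y c f) t r =
      (c : ℝ) * t ^ a * r ^ b * Real.exp (x * t + y * r) + ev2 f t r := by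
  induction f with
  | nil => simp [ins2, ev2_cons]
  | cons p l ih =>
    obtain ⟨a', b', x', y', c'⟩ := p
    unfold ins2
    split_ifs with h
    · simp only [Bool.and_eq_true, beq_iff_eq] at h
      obtain ⟨⟨rfl, rfl⟩, rfl, rfl⟩ := h
      simp only [ev2_cons]
      push_cast
      ring
    · simp only [ev2_cons, ih]
      ring

lemma ev2_filter (f : L2) (t r : ℝ) :
    ev2 (f.filter fun p => !(p.2.2.2.2 == 0)) t r = ev2 f t r := by
  induction f with
  | nil => simp
  | cons p l ih =>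
    by_cases h : p.2.2.2.2 = 0
    · rw [List.filter_cons_of_neg (by simp [h]), ih, ev2_cons, h]
      simp
    · rw [List.filter_cons_of_pos (by simp [h]), ev2_cons, ev2_cons, ih]

lemma ev2_norm2 (f : L2) (t r : ℝ) : ev2 (norm2 f) t r = ev2 f t r := by
  unfold norm2
  rw [ev2_filter]
  induction f with
  | nil => simp
  | cons p l ih =>
    rw [List.foldr_cons, ev2_ins2, ih, ev2_cons]

lemma hasDerivAt_ev2 (f : L2) (t r : ℝ) : HasDerivAt (ev2 f t) (ev2 (d2 f) t r) r := by
  induction f with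
  | nil =>
    have : ev2 [] t = fun _ => (0 : ℝ) := by ext; simp
    rw [this]
    simpa [d2] using hasDerivAt_const r (0 : ℝ)
  | cons p l ih =>
    obtain ⟨a, b, x, y, c⟩ := p
    have e : ev2 ((a, b, x, y, c) :: l) t =
        fun r => (c : ℝ) * t ^ a * r ^ b * Real.exp (x * t + y * r) + ev2 l t r := by
      ext r; rw [ev2_cons]
    rw [e]
    have h1 : HasDerivAt (fun r : ℝ => (c : ℝ) * t ^ a * r ^ b * Real.exp (x * t + y * r))
        ((c : ℝ) * t ^ a * (b * r ^ (b - 1)) * Real.exp (x * t + y * r) +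
          (c : ℝ) * t ^ a * r ^ b * (Real.exp (x * t + y * r) * (y * 1))) r :=
      ((hasDerivAt_pow b r).const_mul ((c : ℝ) * t ^ a)).mul
        ((((hasDerivAt_id r).const_mul (y : ℝ)).const_add ((x : ℝ) * t)).exp)
    refine (h1.add ih).congr_deriv ?_
    simp only [d2, List.flatMap_cons, List.cons_append, List.nil_append, ev2_cons]
    push_cast
    ring

lemma ev2_sh2 (m : ℕ) (f : L2) (t r : ℝ) (h : ∀ p ∈ f, m ≤ p.2.2.2.1) :
    ev2 f t r = Real.exp (m * r) * ev2 (sh2 m f) t r := by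
  induction f with
  | nil => simp [sh2]
  | cons p l ih =>
    have h1 := h p (by simp)
    have e : sh2 m (p :: l) = (p.1, p.2.1, p.2.2.1, p.2.2.2.1 - m, p.2.2.2.2) :: sh2 m l := rfl
    rw [e, ev2_cons, ev2_cons, ih fun q hq => h q (by simp [hq]), mul_add]
    congr 1
    have h2 : (p.2.2.1 : ℝ) * t + p.2.2.2.1 * r =
        m * r + ((p.2.2.1 : ℝ) * t + ((p.2.2.2.1 - m : ℕ) : ℝ) * r) := by
      rw [Nat.cast_sub h1]; ring
    rw [h2, Real.exp_add]
    ring

lemma ev2_zero (f : L2) (t : ℝ) : ev2 f t 0 = ev1 (r0 f) t := by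
  induction f with
  | nil => simp [r0]
  | cons p l ih =>
    have e : r0 (p :: l) =
        (if p.2.1 == 0 then [(p.1, p.2.2.1, p.2.2.2.2)] else []) ++ r0 l := by simp [r0]
    rw [e, ev2_cons, ih]
    by_cases h : p.2.1 = 0
    · simp [h, ev1_cons]
    · simp [h]

theorem check2_pos (n : ℕ) (f : L2) (h : check2 n f = true) :
    ∀ t : ℝ, 0 < t → ∀ r : ℝ, 0 ≤ r → 0 ≤ ev2 f t r ∧ (f ≠ [] → 0 < ev2 f t r) := by
  induction n generalizing f with
  | zero =>
    intro t _ r _
    have : f = [] := by simpa [check2] using h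
    subst this
    simp
  | succ n ih =>
    intro t ht r hr
    unfold check2 at h
    rw [Bool.or_eq_true, Bool.and_eq_true, Bool.and_eq_true] at h
    rcases h with h | ⟨h1, h2, h3⟩
    · have : f = [] := by simpa using h
      subst this
      simp
    · suffices 0 < ev2 f t r from ⟨this.le, fun _ => this⟩
      rw [List.all_eq_true] at h1
      have h1' : ∀ p ∈ f, min2 f ≤ p.2.2.2.1 := fun p hp => Nat.le_of_ble_eq_true (h1 p hp)
      rw [ev2_sh2 (min2 f) f t r h1']
      refine mul_pos (Real.exp_pos _) ?_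
      have hd := ih _ h3
      obtain ⟨g, hg⟩ : ∃ g, g = sh2 (min2 f) f := ⟨_, rfl⟩
      rw [← hg] at h2 hd ⊢
      have hmono : MonotoneOn (ev2 g t) (Set.Ici 0) := by
        refine monotoneOn_of_deriv_nonneg (convex_Ici 0)
          (fun x _ => (hasDerivAt_ev2 g t x).continuousAt.continuousWithinAt)
          (fun x _ => (hasDerivAt_ev2 g t x).differentiableAt.differentiableWithinAt)
          fun x hx => ?_
        rw [interior_Ici, Set.mem_Ioi] at hx
        rw [(hasDerivAt_ev2 g t x).deriv, ← ev2_norm2]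
        exact (hd t ht x hx.le).1
      have h4 := hmono (Set.mem_Ici.2 le_rfl) (Set.mem_Ici.2 hr) hr
      rw [ev2_zero, ← ev1_norm1] at h4
      exact lt_of_lt_of_le (check1_pos _ _ h2 t ht) h4

/-! ### building expressions -/

def add (f g : L2) : L2 := f ++ g

def smul (c : ℤ) (f : L2) : L2 := f.map fun p => (p.1, p.2.1, p.2.2.1, p.2.2.2.1, c * p.2.2.2.2)

def mulT (a b x y : ℕ) (c : ℤ) (f : L2) : L2 := f.map fun p =>
  (a + p.1, b + p.2.1, x + p.2.2.1, y + p.2.2.2.1, c * p.2.2.2.2)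

def mul (f g : L2) : L2 := norm2 (f.flatMap fun p =>
  mulT p.1 p.2.1 p.2.2.1 p.2.2.2.1 p.2.2.2.2 g)

lemma ev2_append (f g : L2) (t r : ℝ) : ev2 (f ++ g) t r = ev2 f t r + ev2 g t r := by
  simp [ev2]

lemma ev2_add (f g : L2) (t r : ℝ) : ev2 (add f g) t r = ev2 f t r + ev2 g t r :=
  ev2_append f g t r

lemma ev2_smul (c : ℤ) (f : L2) (t r : ℝ) : ev2 (smul c f) t r = c * ev2 f t r := by
  induction f with
  | nil => simp [smul]
  | cons p l ih =>
    have e : smul c (p :: l) =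
        (p.1, p.2.1, p.2.2.1, p.2.2.2.1, c * p.2.2.2.2) :: smul c l := rfl
    rw [e, ev2_cons, ev2_cons, ih]
    push_cast
    ring

lemma ev2_mulT (a b x y : ℕ) (c : ℤ) (f : L2) (t r : ℝ) : ev2 (mulT a b x y c f) t r =
    ((c : ℝ) * t ^ a * r ^ b * Real.exp (x * t + y * r)) * ev2 f t r := by
  induction f with
  | nil => simp [mulT]
  | cons p l ih =>
    have e : mulT a b x y c (p :: l) =
        (a + p.1, b + p.2.1, x + p.2.2.1, y + p.2.2.2.1, c * p.2.2.2.2) :: mulT a b x y c l := rfl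
    rw [e, ev2_cons, ev2_cons, ih]
    have h : ((x + p.2.2.1 : ℕ) : ℝ) * t + ((y + p.2.2.2.1 : ℕ) : ℝ) * r =
        (x * t + y * r) + (p.2.2.1 * t + p.2.2.2.1 * r) := by push_cast; ring
    simp only [h, Real.exp_add (x * t + y * r), pow_add]
    push_cast
    ring

lemma ev2_mul (f g : L2) (t r : ℝ) : ev2 (mul f g) t r = ev2 f t r * ev2 g t r := by
  unfold mul
  rw [ev2_norm2]
  induction f with
  | nil => simp
  | cons p l ih =>
    rw [List.flatMap_cons, ev2_append, ih, ev2_mulT, ev2_cons]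
    ring

end Pool.Agent.Q233.EP
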