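import Pool.Agent.Q233.EP.Check

set_option autoImplicit false

namespace Pool.Agent.Q233.EP

def cO : L2 := [(0, 0, 0, 0, 1)]
def cN : L2 := [(0, 0, 0, 0, -1)]
def cT : L2 := [(1, 0, 0, 0, 1)]
def cS : L2 := [(1, 0, 0, 0, 1), (0, 1, 0, 0, 1)]
def cV : L2 := [(0, 0, 2, 0, 1)]
def cW : L2 := [(0, 0, 2, 2, 1)]

lemma ev_cO (t r : ℝ) : ev2 cO t r = 1 := by simp [cO, ev2_cons]
lemma ev_cN (t r : ℝ) : ev2 cN t r = -1 := by simp [cN, ev2_cons]
lemma ev_cT (t r : ℝ) : ev2 cT t r = t := by simp [cT, ev2_cons]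
lemma ev_cS (t r : ℝ) : ev2 cS t r = t + r := by simp [cS, ev2_cons]
lemma ev_cV (t r : ℝ) : ev2 cV t r = Real.exp (2 * t) := by simp [cV, ev2_cons]
lemma ev_cW (t r : ℝ) : ev2 cW t r = Real.exp (2 * (t + r)) := by
  simp [cW, ev2_cons, mul_add]

def lM1 : L2 :=
  add (mul (mul (mul (mul (add cS cT) (add cS cT)) cV) (mul (add cV cN) (add cV cN)))
      (mul cW (add cW cN)))
    (mul (mul cN (add (mul cV cW) cN))
      (add (mul (mul (mul (mul cT cT) cV) (add cW cN))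
          (add (mul (mul (add cO (mul cN cS)) (add cV cN)) cW) (mul cT (add cW cN))))
        (mul (mul (mul cS cS) (mul (add cV cN) (add cV cN))) cW)))

def lM2 : L2 :=
  add (mul (mul (mul (add cS cT) (add cS cT)) (mul (add cV cN) (add cV cN)))
      (mul cW (add cW cN)))
    (mul (mul cN (add (mul cV cW) cN))
      (add (mul (mul (mul cT cT) (add cW cN))
          (add (mul (add cO cS) (add cV cN)) (mul cN (mul (mul cT cV) (add cW cN)))))
        (mul (mul (mul cS cS) cW) (mul (add cV cN) (add cV cN)))))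

theorem M1_pos {t s : ℝ} (ht : 0 < t) (hs : t ≤ s) :
    0 < (s + t) ^ 2 * Real.exp (2 * t) * (Real.exp (2 * t) - 1) ^ 2 *
        (Real.exp (2 * s) * (Real.exp (2 * s) - 1)) -
      (Real.exp (2 * t) * Real.exp (2 * s) - 1) *
        (t ^ 2 * Real.exp (2 * t) * (Real.exp (2 * s) - 1) *
          ((1 - s) * (Real.exp (2 * t) - 1) * Real.exp (2 * s) + t * (Real.exp (2 * s) - 1)) +
        s ^ 2 * (Real.exp (2 * t) - 1) ^ 2 * Real.exp (2 * s)) := by
  have h := (check2_pos 20 (norm2 lM1) (by decide +kernel) t ht (s - t) (by linarith)).2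
    (by decide +kernel)
  rw [ev2_norm2] at h
  unfold lM1 at h
  simp only [ev2_add, ev2_mul, ev_cO, ev_cN, ev_cT, ev_cS, ev_cV, ev_cW] at h
  rw [show t + (s - t) = s by ring] at h
  refine lt_of_lt_of_eq h ?_
  ring

theorem M2_pos {t s : ℝ} (ht : 0 < t) (hs : t ≤ s) :
    0 < (s + t) ^ 2 * (Real.exp (2 * t) - 1) ^ 2 *
        (Real.exp (2 * s) * (Real.exp (2 * s) - 1)) -
      (Real.exp (2 * t) * Real.exp (2 * s) - 1) *
        (t ^ 2 * (Real.exp (2 * s) - 1) *
          ((1 + s) * (Real.exp (2 * t) - 1) - t * Real.exp (2 * t) * (Real.exp (2 * s) - 1)) +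
        s ^ 2 * Real.exp (2 * s) * (Real.exp (2 * t) - 1) ^ 2) := by
  have h := (check2_pos 20 (norm2 lM2) (by decide +kernel) t ht (s - t) (by linarith)).2
    (by decide +kernel)
  rw [ev2_norm2] at h
  unfold lM2 at h
  simp only [ev2_add, ev2_mul, ev_cO, ev_cN, ev_cT, ev_cS, ev_cV, ev_cW] at h
  rw [show t + (s - t) = s by ring] at h
  refine lt_of_lt_of_eq h ?_
  ring

end Pool.Agent.Q233.EP
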